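import Pool.Agent.K4H72.Til.Spec

open Set

namespace Pool.Agent.K4H72.Til

/-- the reference point of a set: the infima of the real and of the imaginary parts -/
noncomputable def ref90 (A : Set ℂ) : ℂ := ⟨sInf (Complex.re '' A), sInf (Complex.im '' A)⟩

theorem sInf_shift90 (s : Set ℝ) (a : ℝ) (hs : s.Nonempty) (hb : BddBelow s) :
    sInf ((fun x => a + x) '' s) = a + sInf s := by
  have h := (OrderIso.addLeft a).map_csInf' hs hb
  simpa using h.symm

theorem ref_shift90 (A : Set ℂ) (a : ℂ) (hA : A.Nonempty) (hc : IsCompact A) :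
    ref90 ((fun z => a + z) '' A) = a + ref90 A := by
  apply Complex.ext
  · show sInf (Complex.re '' ((fun z => a + z) '' A)) = a.re + sInf (Complex.re '' A)
    rw [← sInf_shift90 _ a.re (hA.image _) (hc.image Complex.continuous_re).bddBelow, image_image,
      image_image]
    simp only [Complex.add_re]
  · show sInf (Complex.im '' ((fun z => a + z) '' A)) = a.im + sInf (Complex.im '' A)
    rw [← sInf_shift90 _ a.im (hA.image _) (hc.image Complex.continuous_im).bddBelow, image_image,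
      image_image]
    simp only [Complex.add_im]

theorem trans90 {C : Type} (s t : Tile C) (a b : ℂ) (h : shift a s = shift b t) :
    s.1 = (fun z => (b - a) + z) '' t.1 := by
  have h1 : (fun z => a + z) '' s.1 = (fun z => b + z) '' t.1 := congrArg Prod.fst h
  have h2 : s.1 = (fun z => -a + z) '' ((fun z => a + z) '' s.1) := by
    rw [image_image]
    simp
  rw [h2, h1, image_image]
  congr 1
  funext z
  ring

theorem points {C : Type} (T : Set (Tile C)) (hT : IsTiling T) (hF : FLC T) :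
    ∃ (P : Set ℂ) (D : ℝ), 0 < D ∧ (∀ x : ℂ, ∃ p ∈ P, ‖x - p‖ ≤ D / 4) ∧
      {d : ℂ | ∃ p ∈ P, ∃ p' ∈ P, d = p - p' ∧ ‖d‖ ≤ 8 * D}.Finite ∧
      ∀ R : ℝ, ∃ R' : ℝ, 0 < R' ∧ ∀ x y : ℂ,
        patch T (-x) (Metric.ball 0 R') = patch T (-y) (Metric.ball 0 R') →
          ∀ p : ℂ, ‖p‖ < R → (x + p ∈ P ↔ y + p ∈ P) := by
  classical
  have hcpt : ∀ t ∈ T, IsCompact t.1 := fun t ht => (hT.polygon t ht).2.1
  have hne : ∀ t ∈ T, t.1.Nonempty := fun t ht => (hT.polygon t ht).1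
  have hkey : ∀ t ∈ T, ∀ (s : Tile C) (a b : ℂ), shift a s = shift b t →
      IsCompact s.1 ∧ s.1 = (fun z => (b - a) + z) '' t.1 ∧ ref90 s.1 = (b - a) + ref90 t.1 := by
    intro t ht s a b h
    have h1 := trans90 s t a b h
    refine ⟨?_, h1, ?_⟩
    · rw [h1]
      exact (hcpt t ht).image (by fun_prop)
    · rw [h1]
      exact ref_shift90 _ _ (hne t ht) (hcpt t ht)
  -- the tiles have bounded size
  obtain ⟨r, hr0, hr⟩ : ∃ r : ℝ, 0 ≤ r ∧ ∀ t ∈ T, ∀ z ∈ t.1, ‖z - ref90 t.1‖ ≤ r := by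
    obtain ⟨F1, hF1, hF1', hF1''⟩ := hF 1 one_pos
    have hQ : (⋃ Q ∈ F1, Q).Finite := hF1.biUnion hF1'
    have hex : ∀ s : Tile C, ∃ rs : ℝ, IsCompact s.1 → ∀ z ∈ s.1, ‖z - ref90 s.1‖ ≤ rs := by
      intro s
      by_cases hs : IsCompact s.1
      · have hc : Continuous (fun z : ℂ => ‖z - ref90 s.1‖) := by fun_prop
        obtain ⟨b, hb⟩ := (hs.image hc).bddAbove
        exact ⟨b, fun _ z hz => hb ⟨z, hz, rfl⟩⟩
      · exact ⟨0, fun h => absurd h hs⟩
    choose rs hrs using hex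
    obtain ⟨r0, hr0⟩ := (hQ.image rs).bddAbove
    refine ⟨max r0 0, le_max_right _ _, ?_⟩
    intro t ht z hz
    obtain ⟨x, hx⟩ := hne t ht
    obtain ⟨Q, hQF, a, ha⟩ := hF1'' x
    have h1 : shift (-x) t ∈ patch T (-x) (Metric.ball 0 1) :=
      ⟨⟨t, ht, rfl⟩, ⟨0, ⟨x, hx, by simp⟩, by simp⟩⟩
    rw [ha] at h1
    obtain ⟨s, hs, hst⟩ := h1
    obtain ⟨h2, h3, h4⟩ := hkey t ht s a (-x) hst
    have h5 : (-x - a) + z ∈ s.1 := by
      rw [h3]
      exact ⟨z, hz, rfl⟩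
    have h6 := hrs s h2 _ h5
    rw [h4] at h6
    have h7 : (-x - a) + z - ((-x - a) + ref90 t.1) = z - ref90 t.1 := by ring
    rw [h7] at h6
    have h8 : rs s ≤ r0 := hr0 ⟨s, mem_biUnion hQF hs, rfl⟩
    exact h6.trans (h8.trans (le_max_left _ _))
  refine ⟨(fun t : Tile C => ref90 t.1) '' T, 4 * r + 4, by linarith, ?_, ?_, ?_⟩
  · intro x
    obtain ⟨t, ht, hx⟩ := hT.cover x
    exact ⟨_, ⟨t, ht, rfl⟩, (hr t ht x hx).trans (by linarith)⟩
  · obtain ⟨F2, hF2, hF2', hF2''⟩ := hF (8 * (4 * r + 4) + r + 1) (by linarith)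
    have hQ : (⋃ Q ∈ F2, Q).Finite := hF2.biUnion hF2'
    refine ((hQ.prod hQ).image (fun q : Tile C × Tile C => ref90 q.1.1 - ref90 q.2.1)).subset ?_
    rintro d ⟨_, ⟨t, ht, rfl⟩, _, ⟨t', ht', rfl⟩, hd, hdn⟩
    obtain ⟨Q, hQF, a, ha⟩ := hF2'' (ref90 t.1)
    have h1 : shift (-ref90 t.1) t ∈
        patch T (-ref90 t.1) (Metric.ball 0 (8 * (4 * r + 4) + r + 1)) := by
      obtain ⟨z, hz⟩ := hne t ht
      refine ⟨⟨t, ht, rfl⟩, ⟨-ref90 t.1 + z, ⟨z, hz, rfl⟩, ?_⟩⟩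
      rw [mem_ball_zero_iff]
      have h2 := hr t ht z hz
      rw [show -ref90 t.1 + z = z - ref90 t.1 by ring]
      linarith
    have h1' : shift (-ref90 t.1) t' ∈
        patch T (-ref90 t.1) (Metric.ball 0 (8 * (4 * r + 4) + r + 1)) := by
      obtain ⟨z, hz⟩ := hne t' ht'
      refine ⟨⟨t', ht', rfl⟩, ⟨-ref90 t.1 + z, ⟨z, hz, rfl⟩, ?_⟩⟩
      rw [mem_ball_zero_iff]
      have h2 := hr t' ht' z hz
      have h3 : -ref90 t.1 + z = (z - ref90 t'.1) - d := by rw [hd]; ring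
      rw [h3]
      have h4 := norm_sub_le (z - ref90 t'.1) d
      linarith
    rw [ha] at h1 h1'
    obtain ⟨s, hs, hst⟩ := h1
    obtain ⟨s', hs', hst'⟩ := h1'
    obtain ⟨-, -, h4⟩ := hkey t ht s a _ hst
    obtain ⟨-, -, h4'⟩ := hkey t' ht' s' a _ hst'
    refine ⟨(s, s'), ⟨mem_biUnion hQF hs, mem_biUnion hQF hs'⟩, ?_⟩
    simp only
    rw [h4, h4', hd]
    ring
  · intro R
    refine ⟨|R| + r + 1, by positivity, ?_⟩
    have hone : ∀ x y : ℂ,
        patch T (-x) (Metric.ball 0 (|R| + r + 1)) = patch T (-y) (Metric.ball 0 (|R| + r + 1)) →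
          ∀ p : ℂ, ‖p‖ < R → x + p ∈ (fun t : Tile C => ref90 t.1) '' T →
            y + p ∈ (fun t : Tile C => ref90 t.1) '' T := by
      rintro x y hxy p hp ⟨t, ht, htp⟩
      simp only at htp
      have h1 : shift (-x) t ∈ patch T (-x) (Metric.ball 0 (|R| + r + 1)) := by
        obtain ⟨z, hz⟩ := hne t ht
        refine ⟨⟨t, ht, rfl⟩, ⟨-x + z, ⟨z, hz, rfl⟩, ?_⟩⟩
        rw [mem_ball_zero_iff]
        have h2 := hr t ht z hz
        have h3 : -x + z = (z - ref90 t.1) + p := by rw [htp]; ring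
        rw [h3]
        have h4 := norm_add_le (z - ref90 t.1) p
        have h5 := le_abs_self R
        linarith
      rw [hxy] at h1
      obtain ⟨⟨t', ht', htt⟩, -⟩ := h1
      obtain ⟨-, -, h4⟩ := hkey t ht t' (-y) (-x) htt
      refine ⟨t', ht', ?_⟩
      simp only
      rw [h4, htp]
      ring
    intro x y hxy p hp
    exact ⟨hone x y hxy p hp, hone y x hxy.symm p hp⟩

end Pool.Agent.K4H72.Til
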