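import Pool.Agent.K4H59.TL.Spec
import Pool.Agent.K4H90.TilPoints

open Set

namespace Pool.Agent.K4H59.TL

open Pool.Agent.K4H72.Til (IsPolygon ShareEdge IsTiling Tile Derivable Adj HasLocEig patch shift
  ref90 ref_shift90)

theorem sh_sh90 (s t : ℂ) (K : Set ℂ) : sh s (sh t K) = sh (s + t) K := by
  unfold sh
  rw [image_image]
  simp only [add_assoc]

theorem sh_zero90 (K : Set ℂ) : sh 0 K = K := by
  unfold sh
  simp

theorem sh_inj90 {K : Set ℂ} (hK : K.Nonempty) (hc : IsCompact K) {s t : ℂ}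
    (h : sh s K = sh t K) : s = t := by
  have h1 : ref90 (sh s K) = s + ref90 K := ref_shift90 K s hK hc
  have h2 : ref90 (sh t K) = t + ref90 K := ref_shift90 K t hK hc
  rw [h, h2] at h1
  exact (add_right_cancel h1).symm

/-- PIECE M5 (the definition `newT` is unfolded; the hypothesis `hpoly` is `sh_polygon`) -/
theorem newT_der'_of90 (hpoly : ∀ {K : Set ℂ} (t : ℂ), IsPolygon K → IsPolygon (sh t K))
    {C : Type} {T : Set (Tile C)} (hT : IsTiling T) {rep : Set ℂ → Set ℂ} {t : Set ℂ → ℂ}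
    (h1 : ∀ K, K = sh (t K) (rep K))
    {D₀ : Set ℂ → Set (Set ℂ)} {ρ₀ : Set ℂ → Set ℂ → ℕ}
    (hD : ∀ K, IsPolygon K → GoodDec K (D₀ K) (ρ₀ K))
    (N : Set (Tile (C × Set ℂ × Set ℂ)))
    (hN : N = {q | ∃ s ∈ T, ∃ Q₀ ∈ D₀ (rep s.1), q = (sh (t s.1) Q₀, (s.2, rep s.1, Q₀))}) :
    Derivable N T := by
  have hrep : ∀ s ∈ T, IsPolygon (rep s.1) := by
    intro s hs
    have h2 := congrArg (sh (-(t s.1))) (h1 s.1)
    rw [sh_sh90, neg_add_cancel, sh_zero90] at h2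
    rw [← h2]
    exact hpoly _ (hT.polygon s hs)
  have hone : ∀ x y : ℂ, patch N (-x) (Metric.ball 0 1) = patch N (-y) (Metric.ball 0 1) →
      patch T (-x) {0} ⊆ patch T (-y) {0} := by
    rintro x y hxy p ⟨⟨s, hs, rfl⟩, hp⟩
    obtain ⟨z, hz, hz0⟩ := hp
    rw [mem_singleton_iff] at hz0
    subst hz0
    obtain ⟨x', hx', hxx⟩ := hz
    have hxe : x' = x := by
      have : -x + x' = 0 := hxx
      rw [neg_add_eq_zero] at this
      exact this.symm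
    subst hxe
    -- the piece
    have hx1 : x' ∈ sh (t s.1) (rep s.1) := by rw [← h1 s.1]; exact hx'
    obtain ⟨w, hw, hwx⟩ := hx1
    obtain ⟨Q₀, hQ₀, hwQ⟩ := (hD _ (hrep s hs)).cover w hw
    have hQp := (hD _ (hrep s hs)).poly Q₀ hQ₀
    have hq : (sh (t s.1) Q₀, (s.2, rep s.1, Q₀)) ∈ N := by
      rw [hN]
      exact ⟨s, hs, Q₀, hQ₀, rfl⟩
    have hmem : shift (-x') (sh (t s.1) Q₀, (s.2, rep s.1, Q₀)) ∈
        patch N (-x') (Metric.ball 0 1) := by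
      refine ⟨⟨_, hq, rfl⟩, ⟨0, ⟨x', ⟨w, hwQ, hwx⟩, by simp⟩, by simp⟩⟩
    rw [hxy] at hmem
    obtain ⟨⟨q', hq', hqq⟩, -⟩ := hmem
    rw [hN] at hq'
    obtain ⟨s', hs', Q', hQ', rfl⟩ := hq'
    have hcol := congrArg Prod.snd hqq
    have hset := congrArg Prod.fst hqq
    change (s'.2, rep s'.1, Q') = (s.2, rep s.1, Q₀) at hcol
    change sh (-y) (sh (t s'.1) Q') = sh (-x') (sh (t s.1) Q₀) at hset
    rw [Prod.mk.injEq, Prod.mk.injEq] at hcol
    obtain ⟨hc1, hc2, hc3⟩ := hcol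
    rw [hc3, sh_sh90, sh_sh90] at hset
    have hts := sh_inj90 hQp.1 hQp.2.1 hset
    have hfin : shift (-y) s' = shift (-x') s := by
      refine Prod.ext ?_ hc1
      change sh (-y) s'.1 = sh (-x') s.1
      rw [h1 s'.1, h1 s.1, hc2, sh_sh90, sh_sh90, hts]
    refine ⟨⟨s', hs', hfin⟩, ?_⟩
    exact ⟨0, ⟨x', hx', by simp⟩, rfl⟩
  exact ⟨1, one_pos, fun x y hxy => Subset.antisymm (hone x y hxy) (hone y x hxy.symm)⟩

end Pool.Agent.K4H59.TL
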