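import Pool.Agent.K4H59.TL.Spec

open Set

namespace Pool.Agent.K4H59.TL

open Pool.Agent.K4H72.Til (IsPolygon ShareEdge IsTiling Tile Derivable Adj HasLocEig)

theorem edge_of_exposed90 {A e : Set ℂ} (h : IsExposed ℝ A e) (hn : e.Nontrivial) (hne : e ≠ A) :
    IsEdge A e := by
  obtain ⟨l, hl⟩ := h hn.nonempty
  obtain ⟨x0, hx0⟩ := hn.nonempty
  have hx0' := hx0
  rw [hl] at hx0'
  refine ⟨hn, l, l x0, ?_, hx0'.2, ?_⟩
  · intro h0
    apply hne
    rw [hl, h0]
    ext x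
    simp
  · conv_lhs => rw [hl]
    ext x
    constructor
    · rintro ⟨hx, hx1⟩
      exact ⟨hx, le_antisymm (hx0'.2 x hx) (hx1 x0 hx0'.1)⟩
    · rintro ⟨hx, hx1⟩
      exact ⟨hx, fun y hy => by rw [hx1]; exact hx0'.2 y hy⟩

theorem exposed_of_edge90 {A e : Set ℂ} (hA : IsPolygon A) (h : IsEdge A e) :
    IsExposed ℝ A e ∧ e ≠ A := by
  obtain ⟨hn, φ, c, hφ, hle, he⟩ := h
  constructor
  · intro _
    refine ⟨φ, ?_⟩
    obtain ⟨x1, hx1⟩ := hn.nonempty
    rw [he] at hx1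
    rw [he]
    ext x
    constructor
    · rintro ⟨hx, hx2⟩
      exact ⟨hx, fun y hy => by rw [hx2]; exact hle y hy⟩
    · rintro ⟨hx, hx2⟩
      exact ⟨hx, le_antisymm (hle x hx) (by rw [← hx1.2]; exact hx2 x1 hx1.1)⟩
  · intro heq
    obtain ⟨z, hz⟩ : (interior A).Nonempty := by
      obtain ⟨a, ha⟩ := hA.1
      exact closure_nonempty_iff.1 ⟨a, hA.2.2.1 ha⟩
    have hc : ∀ x ∈ A, φ x = c := by
      intro x hx
      rw [← heq, he] at hx
      exact hx.2
    apply hφ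
    ext v
    have hcont : ContinuousAt (fun s : ℝ => z + s • v) 0 := by fun_prop
    have hnh : interior A ∈ nhds (z + (0 : ℝ) • v) := by
      simpa using isOpen_interior.mem_nhds hz
    have hev : ∀ᶠ s : ℝ in nhdsWithin 0 (Ioi 0), z + s • v ∈ interior A :=
      (hcont.eventually hnh).filter_mono nhdsWithin_le_nhds
    obtain ⟨s, hs1, hs2⟩ := (hev.and self_mem_nhdsWithin).exists
    have h1 := hc _ (interior_subset hs1)
    have h2 := hc _ (interior_subset hz)
    rw [map_add, map_smul, h2, smul_eq_mul] at h1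
    have h3 : s * φ v = 0 := by linarith
    rcases mul_eq_zero.1 h3 with h4 | h4
    · exact absurd h4 (ne_of_gt hs2)
    · simpa using h4

/-- PIECE M7 -/
theorem share_iff {A B : Set ℂ} (hA : IsPolygon A) (hB : IsPolygon B) :
    ShareEdge A B ↔ Share A B := by
  constructor
  · rintro ⟨e, h1, h2, h3, h4, h5⟩
    exact ⟨e, edge_of_exposed90 h1 h3 h4, edge_of_exposed90 h2 h3 h5⟩
  · rintro ⟨e, h1, h2⟩
    exact ⟨e, (exposed_of_edge90 hA h1).1, (exposed_of_edge90 hB h2).1, h1.1,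
      (exposed_of_edge90 hA h1).2, (exposed_of_edge90 hB h2).2⟩

end Pool.Agent.K4H59.TL
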