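import Pool.Agent.K4H72.Til.Spec

open Set

namespace Pool.Agent.K4H72.Til

/-- the statement of `radius` -/
def StRadius90 : Prop := ∀ (h : ℝ) (g : ℤ × ℤ → ℂ), Def1 h g → ∀ (v : ℤ × ℤ) (z : ℂ),
  (∀ e ∈ six, ‖z - g v‖ ≤ ‖z - g (v + e)‖) → ‖z - g v‖ ≤ 7 / 10 * h

/-- the statement of `E_cases` -/
def StCases90 : Prop := ∀ v : ℤ × ℤ, v = 0 ∨ (v ∈ six ∧ ‖E v‖ = 1) ∨ 3 ≤ ‖E v‖ ^ 2

theorem far90 (h : ℝ) (g : ℤ × ℤ → ℂ) (hg : Def1 h g) (v w : ℤ × ℤ) (h3 : 3 ≤ ‖E (w - v)‖ ^ 2) :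
    8 / 5 * h ≤ ‖g w - g v‖ := by
  obtain ⟨hh, hg⟩ := hg
  have h1 : 17 / 10 ≤ ‖E (w - v)‖ := by
    by_contra hlt
    rw [not_le] at hlt
    nlinarith [norm_nonneg (E (w - v))]
  have h2 := hg w v
  have h4 : ‖(h : ℂ) * E (w - v)‖ = h * ‖E (w - v)‖ := by
    rw [norm_mul, Complex.norm_real, Real.norm_of_nonneg hh.le]
  have h5 : ‖(h : ℂ) * E (w - v)‖ - ‖g w - g v‖ ≤ ‖g w - g v - (h : ℂ) * E (w - v)‖ := by
    rw [norm_sub_rev (g w - g v) ((h : ℂ) * E (w - v))]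
    exact norm_sub_norm_le _ _
  rw [h4] at h5
  nlinarith

theorem cell_six_of90 (hr : StRadius90) (hE : StCases90) (h : ℝ) (g : ℤ × ℤ → ℂ) (hg : Def1 h g)
    (v : ℤ × ℤ) : cell g v = {z | ∀ e ∈ six, ‖z - g v‖ ≤ ‖z - g (v + e)‖} := by
  ext z
  constructor
  · intro hz e _
    exact hz (v + e)
  · intro hz w
    have h0 := hr h g hg v z hz
    rcases hE (w - v) with h1 | ⟨h1, -⟩ | h1
    · rw [sub_eq_zero.1 h1]
    · have := hz (w - v) h1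
      rwa [add_sub_cancel] at this
    · have h2 := far90 h g hg v w h1
      have h3 : ‖g w - g v‖ ≤ ‖z - g v‖ + ‖z - g w‖ := by
        have h4 : g w - g v = (z - g v) - (z - g w) := by ring
        rw [h4]
        exact norm_sub_le _ _
      have hh := hg.1
      linarith

theorem touch_of90 (hr : StRadius90) (hE : StCases90) (h : ℝ) (g : ℤ × ℤ → ℂ) (hg : Def1 h g)
    (v w : ℤ × ℤ) (hvw : v ≠ w) (hne : (cell g v ∩ cell g w).Nonempty) : w - v ∈ six := by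
  obtain ⟨z, hz1, hz2⟩ := hne
  have h1 := hr h g hg v z (fun e _ => hz1 (v + e))
  have h2 := hr h g hg w z (fun e _ => hz2 (w + e))
  rcases hE (w - v) with h3 | ⟨h3, -⟩ | h3
  · exact absurd (sub_eq_zero.1 h3).symm hvw
  · exact h3
  · exfalso
    have h4 := far90 h g hg v w h3
    have h5 : ‖g w - g v‖ ≤ ‖z - g v‖ + ‖z - g w‖ := by
      have h6 : g w - g v = (z - g v) - (z - g w) := by ring
      rw [h6]
      exact norm_sub_le _ _
    have hh := hg.1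
    linarith

end Pool.Agent.K4H72.Til
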